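import Pool.Agent.H705.FP.Stm

/-! Project FP (helper705): WAV, elementary bounds for the waves (by helper52). -/

set_option autoImplicit false

namespace Pool.Agent.H52.FP

open MeasureTheory ProbabilityTheory Filter Topology Finset
open Pool.Agent.H705 Pool.Agent.H705.FP

theorem cos_lip (x y : ℝ) : |Real.cos x - Real.cos y| ≤ |x - y| := by
  rw [Real.cos_sub_cos]
  have h1 := Real.abs_sin_le_one ((x + y) / 2)
  have h2 : |Real.sin ((x - y) / 2)| ≤ |(x - y) / 2| := Real.abs_sin_le_abs
  rw [abs_mul, abs_mul, abs_neg, abs_two]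
  have h3 : |(x - y) / 2| = |x - y| / 2 := by rw [abs_div, abs_two]
  rw [h3] at h2
  have h4 := abs_nonneg (Real.sin ((x - y) / 2))
  nlinarith

theorem T_WAV : P_WAV := by
  intro A g w u a β hW hu ha
  have hw0 : ∀ n, 0 ≤ w n := fun n => le_trans (by positivity) (hW n).2.2.1
  have hlow : ∀ n : ℕ, Real.sqrt ((n : ℝ) + 2) ≤ om g w u n := by
    intro n
    unfold om
    have h1 := (hW n).1
    have h2 := mul_nonneg (hw0 n) (hu n).1
    linarith
  have hup : ∀ n : ℕ, |om g w u n| ≤ 2 * ((n : ℝ) + 2) ^ A := by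
    intro n
    have h0 : 0 ≤ om g w u n := (Real.sqrt_nonneg _).trans (hlow n)
    rw [abs_of_nonneg h0]
    unfold om
    have h1 := (hW n).2.1
    have h2 : w n * u n ≤ 1 := mul_le_one₀ (hW n).2.2.2 (hu n).1 (hu n).2
    have h3 : (1 : ℝ) ≤ ((n : ℝ) + 2) ^ A := one_le_pow₀ (by have := Nat.cast_nonneg (α := ℝ) n; linarith)
    linarith
  have habs : ∀ n t, |wv a β (om g w u) n t| ≤ a n := by
    intro n t
    unfold wv
    rw [abs_mul, abs_of_nonneg (ha n)]
    exact mul_le_of_le_one_right (ha n) (Real.abs_cos_le_one _)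
  refine ⟨hlow, ?_, habs, ?_, ?_⟩
  · intro n
    unfold wv
    fun_prop
  · intro n t t'
    unfold wv
    rw [← mul_sub, abs_mul, abs_of_nonneg (ha n), mul_assoc]
    refine mul_le_mul_of_nonneg_left ?_ (ha n)
    refine (cos_lip _ _).trans ?_
    have e : om g w u n * t + β n - (om g w u n * t' + β n) = om g w u n * (t - t') := by ring
    rw [e, abs_mul]
    exact mul_le_mul_of_nonneg_right (hup n) (abs_nonneg _)
  · intro N t
    unfold RO.part RO.R
    exact (Finset.abs_sum_le_sum_abs _ _).trans (Finset.sum_le_sum fun n _ => habs n t)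

end Pool.Agent.H52.FP
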